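import Pool.Agent.Helper98.ST.Mat

set_option autoImplicit false

/-!
The Poincaré inequality for the basis exchange graph: part POIN of MP_d8fb5e_lc.
-/

namespace Pool.Agent.Helper98.ST

open Finset Pool.Agent.Helper870.DT Pool.Agent.H73.ST

theorem upS_insert_eq (F : Finset (Finset ℕ)) (S : Finset ℕ) (v : ℕ) :
    upS F (insert v S) = (upS F S).filter (fun B => v ∈ B) := by
  ext B
  rw [Finset.mem_filter, mem_upS, mem_upS, Finset.insert_subset_iff]
  tauto

theorem swap_sum (F : Finset (Finset ℕ)) (V S : Finset ℕ) (hV : ∀ B ∈ F, B ⊆ V)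
    (g : ℕ → ℝ) (φ : Finset ℕ → ℝ) :
    ∑ B ∈ upS F S, (∑ v ∈ B \ S, g v) * φ B =
      ∑ v ∈ V \ S, g v * ∑ B ∈ upS F (insert v S), φ B := by
  have h1 : ∀ B ∈ upS F S, (∑ v ∈ B \ S, g v) * φ B =
      ∑ v ∈ V \ S, if v ∈ B then g v * φ B else 0 := by
    intro B hB
    rw [mem_upS] at hB
    rw [Finset.sum_mul, ← Finset.sum_filter]
    apply Finset.sum_congr _ (fun _ _ => rfl)
    ext v
    simp only [Finset.mem_sdiff, Finset.mem_filter]
    constructor
    · rintro ⟨h, h'⟩; exact ⟨⟨hV B hB.1 h, h'⟩, h⟩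
    · rintro ⟨⟨_, h⟩, h'⟩; exact ⟨h', h⟩
  rw [Finset.sum_congr rfl h1, Finset.sum_comm]
  apply Finset.sum_congr rfl
  intro v _
  rw [upS_insert_eq, Finset.mul_sum, Finset.sum_filter]

theorem star {F : Finset (Finset ℕ)} {r : ℕ} (hF : MBases F r) {V : Finset ℕ}
    (hV : ∀ B ∈ F, B ⊆ V) {k : ℕ} {S : Finset ℕ} (hS : S.card + (k + 2) = r)
    (f : Finset ℕ → ℝ) :
    ∑ v ∈ V \ S, (∑ B ∈ upS F (insert v S), f B) ^ 2 / ((upS F (insert v S)).card : ℝ) ≤
      ∑ B ∈ upS F S, f B ^ 2 +
        ((k : ℝ) + 1) * ((∑ B ∈ upS F S, f B) ^ 2 / ((upS F S).card : ℝ)) := by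
  have hF' : ∀ A ∈ F, A ⊆ V ∧ A.card = r := fun A hA => ⟨hV A hA, hF.card A hA⟩
  rcases Finset.eq_empty_or_nonempty (upS F S) with h0 | hne
  · have h1 : ∀ v, upS F (insert v S) = ∅ := by
      intro v
      rw [upS_insert_eq, h0, Finset.filter_empty]
    simp [h1, h0]
  have hN : (0 : ℝ) < ((upS F S).card : ℝ) := Nat.cast_pos.mpr hne.card_pos
  set N : ℝ := ((upS F S).card : ℝ) with hNdef
  set d : ℕ → ℝ := fun v => ((upS F (insert v S)).card : ℝ) with hd
  set h : ℕ → ℝ := fun v => ∑ B ∈ upS F (insert v S), f B with hh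
  set g : ℕ → ℝ := fun v => h v / d v with hg
  set s : ℝ := ∑ B ∈ upS F S, f B with hs
  set m : ℝ := (k : ℝ) + 2 with hm
  have hm0 : 0 < m := by positivity
  have hdg : ∀ v, d v * g v = h v := by
    intro v
    rcases Finset.eq_empty_or_nonempty (upS F (insert v S)) with h1 | h1
    · simp [hd, hh, hg, h1]
    · have : (0 : ℝ) < d v := Nat.cast_pos.mpr h1.card_pos
      rw [hg]
      field_simp
  have hgh : ∀ v, g v * h v = h v ^ 2 / d v := by
    intro v
    rw [hg]
    ring
  set G : Finset ℕ → ℝ := fun B => ∑ v ∈ B \ S, g v with hG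
  set X : ℝ := ∑ v ∈ V \ S, h v ^ 2 / d v with hX
  -- sum of G f
  have hGf : ∑ B ∈ upS F S, G B * f B = X := by
    rw [hG, swap_sum F V S hV g f]
    exact Finset.sum_congr rfl fun v _ => hgh v
  have hsum : ∑ v ∈ V \ S, h v = m * s := by
    have := double_count F V r (k + 2) hF' S hS f
    rw [hh, this, hm]
    push_cast
    ring
  have hG1 : ∑ B ∈ upS F S, G B = m * s := by
    have h1 := swap_sum F V S hV g (fun _ => 1)
    simp only [mul_one, Finset.sum_const, nsmul_eq_mul] at h1
    rw [hG, h1, ← hsum]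
    apply Finset.sum_congr rfl
    intro v _
    rw [mul_comm]
    exact hdg v
  -- sum of G^2
  set P : ℝ := ∑ x ∈ V \ S, ∑ y ∈ V \ S, Wt F S x y * (g x * g y) with hP
  have hGG : ∑ B ∈ upS F S, G B * G B = X + P := by
    have h1 := swap_sum F V S hV g G
    have h2 : ∑ B ∈ upS F S, G B * G B = ∑ B ∈ upS F S, (∑ v ∈ B \ S, g v) * G B := rfl
    rw [h2, h1, hX, hP, ← Finset.sum_add_distrib]
    apply Finset.sum_congr rfl
    intro v hv
    have h3 : ∑ B ∈ upS F (insert v S), G B =
        ∑ w ∈ V \ S, g w * ((upS F (insert w (insert v S))).card : ℝ) := by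
      have h4 : ∀ B ∈ upS F (insert v S), G B = ∑ w ∈ V \ S, if w ∈ B then g w else 0 := by
        intro B hB
        rw [mem_upS] at hB
        rw [hG, ← Finset.sum_filter]
        apply Finset.sum_congr _ (fun _ _ => rfl)
        ext w
        simp only [Finset.mem_sdiff, Finset.mem_filter]
        constructor
        · rintro ⟨h, h'⟩; exact ⟨⟨hV B hB.1 h, h'⟩, h⟩
        · rintro ⟨⟨_, h⟩, h'⟩; exact ⟨h', h⟩
      rw [Finset.sum_congr rfl h4, Finset.sum_comm]
      apply Finset.sum_congr rfl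
      intro w _
      rw [upS_insert_eq F (insert v S) w, ← Finset.sum_filter, Finset.sum_const, nsmul_eq_mul,
        mul_comm]
    rw [h3]
    have h5 : ∑ w ∈ V \ S, g w * ((upS F (insert w (insert v S))).card : ℝ) =
        g v * d v + ∑ w ∈ V \ S, Wt F S v w * g w := by
      rw [← Finset.add_sum_erase _ _ hv, ← Finset.add_sum_erase _ (fun w => Wt F S v w * g w) hv]
      have h6 : Wt F S v v = 0 := by unfold Wt; simp
      rw [h6, zero_mul, zero_add, Finset.insert_idem]
      congr 1
      apply Finset.sum_congr rfl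
      intro w hw
      have h7 := (Finset.mem_erase.mp hw).1
      unfold Wt
      rw [if_neg (Ne.symm h7), Finset.insert_comm]
      ring
    rw [h5, mul_add, ← hgh v, ← hdg v, Finset.mul_sum]
    congr 1
    · ring
    · exact Finset.sum_congr rfl fun w _ => by ring
  -- the bound for P
  have hrow : ∀ x ∈ V \ S, ∑ y ∈ V \ S, Wt F S x y = (m - 1) * d x := by
    intro x hx
    have := Wt_sum F V r (k + 1) hF' S (by omega) x hx
    rw [this, hm]
    push_cast
    ring
  have hPb : P ≤ (m - 1) * m * s ^ 2 / N := by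
    have hq := QQ_all hF hV k S hS g
    have htot : ∑ x ∈ V \ S, ∑ y ∈ V \ S, Wt F S x y = (m - 1) * (m * N) := by
      rw [Finset.sum_congr rfl hrow, ← Finset.mul_sum]
      have h1 := double_count F V r (k + 2) hF' S hS (fun _ => 1)
      simp only [Finset.sum_const, nsmul_eq_mul, mul_one] at h1
      rw [hd, h1, hm]
      push_cast
      ring
    have hlin : ∑ x ∈ V \ S, (∑ y ∈ V \ S, Wt F S x y) * g x = (m - 1) * (m * s) := by
      rw [← hsum, Finset.mul_sum]
      apply Finset.sum_congr rfl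
      intro x hx
      rw [hrow x hx, mul_assoc, hdg]
    rw [htot, hlin] at hq
    have hm1 : 0 < m - 1 := by rw [hm]; have : (0:ℝ) ≤ (k:ℝ) := Nat.cast_nonneg k; linarith
    rw [le_div_iff₀ hN]
    have h2 : ((m - 1) * m) * (P * N) ≤ ((m - 1) * m) * ((m - 1) * m * s ^ 2) := by
      calc _ = (m - 1) * (m * N) * P := by ring
        _ ≤ ((m - 1) * (m * s)) ^ 2 := hq
        _ = _ := by ring
    exact le_of_mul_le_mul_left h2 (mul_pos hm1 hm0)
  -- the square
  set c : ℝ := (m - 1) * s / N with hc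
  have hsq : 0 ≤ ∑ B ∈ upS F S, (G B - f B - c) ^ 2 :=
    Finset.sum_nonneg fun B _ => sq_nonneg _
  have hexp : ∑ B ∈ upS F S, (G B - f B - c) ^ 2 =
      (X + P) - 2 * X + ∑ B ∈ upS F S, f B ^ 2 - 2 * c * (m * s) + 2 * c * s + c ^ 2 * N := by
    rw [← hGG, ← hGf, ← hG1, hs, hNdef]
    have hconst : c ^ 2 * ((upS F S).card : ℝ) = ∑ B ∈ upS F S, c ^ 2 := by
      rw [Finset.sum_const, nsmul_eq_mul]; ring
    rw [hconst]
    simp only [Finset.mul_sum, ← Finset.sum_add_distrib, ← Finset.sum_sub_distrib]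
    apply Finset.sum_congr rfl
    intro B _
    ring
  rw [hexp] at hsq
  have hcN : c * N = (m - 1) * s := by
    rw [hc]; field_simp
  have hc2 : c ^ 2 * N = c * ((m - 1) * s) := by rw [← hcN]; ring
  have hcs : c * s = (m - 1) * (s ^ 2 / N) := by rw [hc]; ring
  have hPb' : P ≤ (m - 1) * m * (s ^ 2 / N) := by
    calc P ≤ _ := hPb
      _ = _ := by ring
  have hfin : X ≤ ∑ B ∈ upS F S, f B ^ 2 + (m - 1) * (s ^ 2 / N) := by
    have h1 : X ≤ P + ∑ B ∈ upS F S, f B ^ 2 - (m - 1) * (c * s) := by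
      rw [hc2] at hsq
      linarith
    rw [hcs] at h1
    have h2 : P - (m - 1) * ((m - 1) * (s ^ 2 / N)) ≤ (m - 1) * (s ^ 2 / N) := by
      calc _ ≤ (m - 1) * m * (s ^ 2 / N) - (m - 1) * ((m - 1) * (s ^ 2 / N)) := by linarith
        _ = _ := by ring
    linarith
  have hm1 : m - 1 = (k : ℝ) + 1 := by rw [hm]; ring
  rw [hm1] at hfin
  exact hfin

/-- the kernel of the Dirichlet form -/
noncomputable def KK (F : Finset (Finset ℕ)) (r : ℕ) (f : Finset ℕ → ℝ) (B B' : Finset ℕ) : ℝ :=
  if (B ∩ B').card + 1 = r then (f B - f B') ^ 2 / ((upS F (B ∩ B')).card : ℝ) else 0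

theorem KK_nonneg (F : Finset (Finset ℕ)) (r : ℕ) (f : Finset ℕ → ℝ) (B B' : Finset ℕ) :
    0 ≤ KK F r f B B' := by
  unfold KK
  split_ifs
  · positivity
  · exact le_refl _

theorem upS_double (F : Finset (Finset ℕ)) (V S : Finset ℕ) (hV : ∀ B ∈ F, B ⊆ V) {r k : ℕ}
    (hS : S.card + (k + 2) = r) (K : Finset ℕ → Finset ℕ → ℝ)
    (hK : ∀ B B', (B ∩ B').card + 1 ≠ r → K B B' = 0) :
    ∑ v ∈ V \ S, ∑ B ∈ upS F (insert v S), ∑ B' ∈ upS F (insert v S), K B B' =
      ((k : ℝ) + 1) * ∑ B ∈ upS F S, ∑ B' ∈ upS F S, K B B' := by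
  have h1 : ∀ v, ∑ B ∈ upS F (insert v S), ∑ B' ∈ upS F (insert v S), K B B' =
      ∑ B ∈ upS F S, ∑ B' ∈ upS F S, if v ∈ B ∩ B' then K B B' else 0 := by
    intro v
    rw [upS_insert_eq, Finset.sum_filter]
    apply Finset.sum_congr rfl
    intro B _
    by_cases h : v ∈ B
    · rw [if_pos h, Finset.sum_filter]
      apply Finset.sum_congr rfl
      intro B' _
      simp [h]
    · rw [if_neg h]
      symm
      apply Finset.sum_eq_zero
      intro B' _
      simp [h]
  rw [Finset.sum_congr rfl (fun v _ => h1 v), Finset.sum_comm, Finset.mul_sum]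
  apply Finset.sum_congr rfl
  intro B hB
  rw [Finset.sum_comm, Finset.mul_sum]
  apply Finset.sum_congr rfl
  intro B' hB'
  rw [mem_upS] at hB hB'
  rw [← Finset.sum_filter, Finset.sum_const, nsmul_eq_mul]
  by_cases h : (B ∩ B').card + 1 = r
  · congr 1
    have h2 : (V \ S).filter (fun v => v ∈ B ∩ B') = (B ∩ B') \ S := by
      ext v
      simp only [Finset.mem_filter, Finset.mem_sdiff, Finset.mem_inter]
      constructor
      · rintro ⟨⟨_, h⟩, h', h''⟩; exact ⟨⟨h', h''⟩, h⟩
      · rintro ⟨⟨h, h'⟩, h''⟩; exact ⟨⟨hV B hB.1 h, h''⟩, h, h'⟩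
    rw [h2]
    have h3 := Finset.card_sdiff_add_card_eq_card (Finset.subset_inter hB.2 hB'.2)
    exact_mod_cast (by omega : ((B ∩ B') \ S).card = k + 1)
  · rw [hK B B' h]
    ring

/-- the Poincaré inequality of the weighted exchange walk on every contraction -/
theorem poin_all {F : Finset (Finset ℕ)} {r : ℕ} (hF : MBases F r) {V : Finset ℕ}
    (hV : ∀ B ∈ F, B ⊆ V) (f : Finset ℕ → ℝ) :
    ∀ (m : ℕ) (S : Finset ℕ), S.card + m = r →
      2 * (∑ B ∈ upS F S, f B ^ 2 - (∑ B ∈ upS F S, f B) ^ 2 / ((upS F S).card : ℝ)) ≤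
        ∑ B ∈ upS F S, ∑ B' ∈ upS F S, KK F r f B B' := by
  intro m
  induction m with
  | zero =>
    intro S hS
    have hnn : 0 ≤ ∑ B ∈ upS F S, ∑ B' ∈ upS F S, KK F r f B B' :=
      Finset.sum_nonneg fun B _ => Finset.sum_nonneg fun B' _ => KK_nonneg _ _ _ _ _
    have hsub : upS F S ⊆ {S} := by
      intro B hB
      rw [mem_upS] at hB
      rw [Finset.mem_singleton]
      symm
      apply Finset.eq_of_subset_of_card_le hB.2
      rw [hF.card B hB.1]
      omega
    rcases Finset.subset_singleton_iff.mp hsub with h | h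
    · rw [h]
      simp
    · refine le_trans (le_of_eq ?_) hnn
      rw [h]
      simp
  | succ m ih =>
    intro S hS
    rcases Nat.eq_zero_or_pos m with hm | hm
    · subst hm
      -- rank one
      rcases Finset.eq_empty_or_nonempty (upS F S) with h0 | hne
      · rw [h0]; simp
      have hN : (0 : ℝ) < ((upS F S).card : ℝ) := Nat.cast_pos.mpr hne.card_pos
      have h1 : ∀ B ∈ upS F S, ∀ B' ∈ upS F S,
          KK F r f B B' = (f B - f B') ^ 2 / ((upS F S).card : ℝ) := by
        intro B hB B' hB'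
        rw [mem_upS] at hB hB'
        by_cases h : B = B'
        · subst h
          unfold KK
          rw [Finset.inter_self, hF.card B hB.1, if_neg (by omega)]
          simp
        · have hss : S ⊆ B ∩ B' := Finset.subset_inter hB.2 hB'.2
          have hc1 := Finset.card_le_card hss
          have hc2 : (B ∩ B').card < r := by
            rw [← hF.card B hB.1]
            apply Finset.card_lt_card
            refine ⟨Finset.inter_subset_left, ?_⟩
            intro h2
            apply h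
            apply Finset.eq_of_subset_of_card_le
            · exact h2.trans Finset.inter_subset_right
            · rw [hF.card B hB.1, hF.card B' hB'.1]
          have h3 : S = B ∩ B' := by
            apply Finset.eq_of_subset_of_card_le hss
            omega
          unfold KK
          rw [if_pos (by omega), ← h3]
      rw [Finset.sum_congr rfl (fun B hB => Finset.sum_congr rfl (fun B' hB' => h1 B hB B' hB'))]
      apply le_of_eq
      have h2 : ∑ B ∈ upS F S, ∑ B' ∈ upS F S, (f B - f B') ^ 2 / ((upS F S).card : ℝ) =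
          (∑ B ∈ upS F S, ∑ B' ∈ upS F S, (f B - f B') ^ 2) / ((upS F S).card : ℝ) := by
        simp only [Finset.sum_div]
      have h3 : ∑ B ∈ upS F S, ∑ B' ∈ upS F S, (f B - f B') ^ 2 =
          2 * ((upS F S).card : ℝ) * ∑ B ∈ upS F S, f B ^ 2 - 2 * (∑ B ∈ upS F S, f B) ^ 2 := by
        have h4 : ∀ B ∈ upS F S, ∑ B' ∈ upS F S, (f B - f B') ^ 2 =
            ((upS F S).card : ℝ) * f B ^ 2 - 2 * f B * (∑ B' ∈ upS F S, f B') +
              ∑ B' ∈ upS F S, f B' ^ 2 := by
          intro B _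
          have h5 : ((upS F S).card : ℝ) * f B ^ 2 = ∑ B' ∈ upS F S, f B ^ 2 := by
            rw [Finset.sum_const, nsmul_eq_mul]
          rw [h5, Finset.mul_sum, ← Finset.sum_sub_distrib, ← Finset.sum_add_distrib]
          exact Finset.sum_congr rfl fun B' _ => by ring
        rw [Finset.sum_congr rfl h4, Finset.sum_add_distrib, Finset.sum_sub_distrib,
          ← Finset.mul_sum, ← Finset.sum_mul, ← Finset.mul_sum, Finset.sum_const, nsmul_eq_mul]
        ring
      rw [h2, h3]
      field_simp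
    · -- rank at least two
      obtain ⟨k, rfl⟩ : ∃ k, m = k + 1 := ⟨m - 1, by omega⟩
      have hS' : S.card + (k + 2) = r := by omega
      have hF' : ∀ A ∈ F, A ⊆ V ∧ A.card = r := fun A hA => ⟨hV A hA, hF.card A hA⟩
      have h1 := upS_double F V S hV hS' (KK F r f) (by
        intro B B' h
        unfold KK
        rw [if_neg h])
      have h2 : ∑ v ∈ V \ S, 2 * (∑ B ∈ upS F (insert v S), f B ^ 2 -
          (∑ B ∈ upS F (insert v S), f B) ^ 2 / ((upS F (insert v S)).card : ℝ)) ≤
          ∑ v ∈ V \ S, ∑ B ∈ upS F (insert v S), ∑ B' ∈ upS F (insert v S), KK F r f B B' := by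
        apply Finset.sum_le_sum
        intro v hv
        apply ih
        rw [Finset.card_insert_of_notMem (Finset.mem_sdiff.mp hv).2]
        omega
      rw [h1] at h2
      have h3 := star hF hV hS' f
      have h4 := double_count F V r (k + 2) hF' S hS' (fun B => f B ^ 2)
      rw [← Finset.mul_sum, Finset.sum_sub_distrib, h4] at h2
      push_cast at h2
      have h5 : (0 : ℝ) < (k : ℝ) + 1 := by positivity
      have h6 : ((k : ℝ) + 1) * (2 * (∑ B ∈ upS F S, f B ^ 2 -
          (∑ B ∈ upS F S, f B) ^ 2 / ((upS F S).card : ℝ))) ≤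
          ((k : ℝ) + 1) * ∑ B ∈ upS F S, ∑ B' ∈ upS F S, KK F r f B B' := by
        refine le_trans ?_ h2
        linarith
      exact le_of_mul_le_mul_left h6 h5

theorem t_POIN : S_POIN := by
  intro F r hF f hf
  have hV : ∀ B ∈ F, B ⊆ F.biUnion id := by
    intro B hB a ha
    rw [Finset.mem_biUnion]
    exact ⟨B, hB, ha⟩
  have h1 := poin_all hF hV f r ∅ (by simp)
  have hup : upS F ∅ = F := by
    ext B
    rw [mem_upS]
    simp
  rw [hup, hf] at h1
  have h2 : ∑ B ∈ F, ∑ B' ∈ F, KK F r f B B' ≤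
      (∑ B ∈ F, ∑ B' ∈ F.filter (fun B' => (B ∩ B').card + 1 = r), (f B - f B') ^ 2) / 2 := by
    rw [Finset.sum_div]
    apply Finset.sum_le_sum
    intro B hB
    rw [Finset.sum_div, Finset.sum_filter]
    apply Finset.sum_le_sum
    intro B' hB'
    unfold KK
    by_cases h : (B ∩ B').card + 1 = r
    · rw [if_pos h, if_pos h]
      have hne : B ≠ B' := by
        rintro rfl
        rw [Finset.inter_self, hF.card B hB] at h
        omega
      have h3 : 2 ≤ (upS F (B ∩ B')).card := by
        rw [← Finset.card_pair hne]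
        apply Finset.card_le_card
        intro A hA
        rw [Finset.mem_insert, Finset.mem_singleton] at hA
        rw [mem_upS]
        rcases hA with rfl | rfl
        · exact ⟨hB, Finset.inter_subset_left⟩
        · exact ⟨hB', Finset.inter_subset_right⟩
      have h4 : (2 : ℝ) ≤ ((upS F (B ∩ B')).card : ℝ) := by exact_mod_cast h3
      exact div_le_div_of_nonneg_left (sq_nonneg _) (by norm_num) h4
    · rw [if_neg h, if_neg h]
  have h3 : (0:ℝ) ^ 2 / ((F.card : ℝ)) = 0 := by simp
  rw [h3] at h1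
  linarith

end Pool.Agent.Helper98.ST
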