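import Pool.Agent.Helper98.ST.Trk
import Pool.Agent.H73.ST.Stm

set_option autoImplicit false

/-!
Basis exchange families: dual exchange, the graph of a contraction, and the quadratic inequality
at every contraction.
-/

namespace Pool.Agent.Helper98.ST

open Finset Pool.Agent.Helper870.DT Pool.Agent.H73.ST

/-- a base can be pulled towards another one while keeping a given element -/
theorem pull {F : Finset (Finset ℕ)} {r : ℕ} (hF : MBases F r) {B : Finset ℕ} (hB : B ∈ F)
    {T : Finset ℕ} (hT : T ⊆ B) {y : ℕ} :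
    ∀ (n : ℕ) (B' : Finset ℕ), B' ∈ F → y ∈ B' → T ⊆ B' → (B' \ insert y B).card = n →
      ∃ B'' ∈ F, y ∈ B'' ∧ T ⊆ B'' ∧ B'' ⊆ insert y B := by
  intro n
  induction n with
  | zero =>
    intro B' h1 h2 h3 h4
    exact ⟨B', h1, h2, h3, Finset.sdiff_eq_empty_iff_subset.mp (Finset.card_eq_zero.mp h4)⟩
  | succ n ih =>
    intro B' h1 h2 h3 h4
    have hne : (B' \ insert y B).Nonempty := by
      rw [← Finset.card_pos]; omega
    obtain ⟨x, hx⟩ := hne
    have hx' := Finset.mem_sdiff.mp hx
    have hxy : x ≠ y := fun h => hx'.2 (by rw [h]; exact Finset.mem_insert_self _ _)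
    have hxB : x ∉ B := fun h => hx'.2 (Finset.mem_insert_of_mem h)
    obtain ⟨t, ht, htF⟩ := hF.exch B' h1 B hB x (Finset.mem_sdiff.mpr ⟨hx'.1, hxB⟩)
    have ht' := Finset.mem_sdiff.mp ht
    refine ih (insert t (B'.erase x)) htF ?_ ?_ ?_
    · exact Finset.mem_insert_of_mem (Finset.mem_erase.mpr ⟨hxy.symm, h2⟩)
    · intro a ha
      refine Finset.mem_insert_of_mem (Finset.mem_erase.mpr ⟨?_, h3 ha⟩)
      rintro rfl
      exact hxB (hT ha)
    · have h5 : insert t (B'.erase x) \ insert y B = (B' \ insert y B).erase x := by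
        ext a
        simp only [Finset.mem_sdiff, Finset.mem_insert, Finset.mem_erase, not_or]
        constructor
        · rintro ⟨h6 | h6, h7⟩
          · rw [h6] at h7
            exact absurd ht'.1 h7.2
          · exact ⟨h6.1, h6.2, h7⟩
        · rintro ⟨h6, h7, h8⟩
          exact ⟨Or.inr ⟨h6, h7⟩, h8⟩
      rw [h5, Finset.card_erase_of_mem hx, h4]
      rfl

/-- dual exchange: `y` can be put into `B` in place of an element outside `T` -/
theorem pull' {F : Finset (Finset ℕ)} {r : ℕ} (hF : MBases F r) {B B' T : Finset ℕ} {y : ℕ}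
    (hB : B ∈ F) (hT : T ⊆ B) (hB' : B' ∈ F) (hy : y ∈ B') (hT' : T ⊆ B') (hyB : y ∉ B) :
    ∃ z ∈ B \ T, insert y (B.erase z) ∈ F := by
  obtain ⟨B'', h1, h2, h3, h4⟩ := pull hF hB hT (y := y) _ B' hB' hy hT' rfl
  have hc := hF.card B hB
  have hc'' := hF.card B'' h1
  -- B'' misses exactly one element of B
  have h5 : (B \ B'').Nonempty := by
    rw [Finset.nonempty_iff_ne_empty]
    intro h0
    have h6 : insert y B ⊆ B'' := by
      intro a ha
      rcases Finset.mem_insert.mp ha with rfl | ha
      · exact h2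
      · exact Finset.sdiff_eq_empty_iff_subset.mp h0 ha
    have := Finset.card_le_card h6
    rw [Finset.card_insert_of_notMem hyB] at this
    omega
  obtain ⟨z, hz⟩ := h5
  have hz' := Finset.mem_sdiff.mp hz
  refine ⟨z, Finset.mem_sdiff.mpr ⟨hz'.1, fun h => hz'.2 (h3 h)⟩, ?_⟩
  have h7 : B'' ⊆ insert y (B.erase z) := by
    intro a ha
    rcases Finset.mem_insert.mp (h4 ha) with rfl | h
    · exact Finset.mem_insert_self _ _
    · refine Finset.mem_insert_of_mem (Finset.mem_erase.mpr ⟨?_, h⟩)
      rintro rfl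
      exact hz'.2 ha
  have h8 : B'' = insert y (B.erase z) := by
    apply Finset.eq_of_subset_of_card_le h7
    rw [Finset.card_insert_of_notMem (by
      intro h; exact hyB (Finset.mem_of_mem_erase h)), Finset.card_erase_of_mem hz'.1]
    have : 0 < B.card := Finset.card_pos.mpr ⟨z, hz'.1⟩
    omega
  rw [← h8]
  exact h1

theorem upS_nonempty {F : Finset (Finset ℕ)} {S : Finset ℕ} :
    (upS F S).Nonempty ↔ ∃ B ∈ F, S ⊆ B := by
  constructor
  · rintro ⟨B, hB⟩
    exact ⟨B, (mem_upS.mp hB).1, (mem_upS.mp hB).2⟩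
  · rintro ⟨B, h1, h2⟩
    exact ⟨B, mem_upS.mpr ⟨h1, h2⟩⟩

/-- nonadjacency in the graph of the contraction is transitive (for nonloops) -/
theorem adj_trans {F : Finset (Finset ℕ)} {r : ℕ} (hF : MBases F r) {S : Finset ℕ}
    (hS : S.card + 2 = r) {x y z : ℕ} (hx : x ∉ S) (hy : y ∉ S) (hz : z ∉ S) (hxz : x ≠ z)
    (hyl : ∃ B ∈ F, insert y S ⊆ B)
    (h : ∃ B ∈ F, insert x (insert z S) ⊆ B) :
    (x ≠ y ∧ ∃ B ∈ F, insert x (insert y S) ⊆ B) ∨
      (z ≠ y ∧ ∃ B ∈ F, insert z (insert y S) ⊆ B) := by
  obtain ⟨B, hB, hBs⟩ := h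
  have hBe : insert x (insert z S) = B := by
    apply Finset.eq_of_subset_of_card_le hBs
    rw [hF.card B hB, Finset.card_insert_of_notMem (by simp [hxz, hx]),
      Finset.card_insert_of_notMem hz]
    omega
  by_cases h1 : x = y
  · right
    refine ⟨fun h => hxz (h1.trans h.symm), B, hB, ?_⟩
    rw [← h1, Finset.insert_comm]
    exact hBs
  by_cases h2 : z = y
  · left
    refine ⟨h1, B, hB, ?_⟩
    rw [← h2]
    exact hBs
  have hyB : y ∉ B := by
    rw [← hBe]
    simp only [Finset.mem_insert, not_or]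
    exact ⟨fun h => h1 h.symm, fun h => h2 h.symm, hy⟩
  obtain ⟨B', hB', hBs'⟩ := hyl
  obtain ⟨t, ht, htF⟩ := pull' hF hB (T := S) (by
    rw [← hBe]
    exact (Finset.subset_insert _ _).trans (Finset.subset_insert _ _)) hB'
    (hBs' (Finset.mem_insert_self _ _)) ((Finset.subset_insert _ _).trans hBs') hyB
  rw [Finset.mem_sdiff, ← hBe, Finset.mem_insert, Finset.mem_insert] at ht
  rcases ht with ⟨h3 | h3 | h3, h4⟩
  · right
    refine ⟨h2, _, htF, ?_⟩
    rw [h3, ← hBe, Finset.erase_insert (by simp [hxz, hx]), Finset.insert_comm]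
  · left
    refine ⟨h1, _, htF, ?_⟩
    intro a ha
    rw [Finset.mem_insert, Finset.mem_erase, ← hBe, Finset.mem_insert, Finset.mem_insert]
    rcases Finset.mem_insert.mp ha with h5 | h5
    · right
      refine ⟨?_, Or.inl h5⟩
      rw [h5, h3]; exact hxz
    · rcases Finset.mem_insert.mp h5 with h6 | h6
      · left; exact h6
      · right
        refine ⟨?_, Or.inr (Or.inr h6)⟩
        rintro rfl
        exact h4 h6
  · exact absurd h3 h4

/-- the graph of a contraction of rank at least two has diameter at most two on the nonloops -/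
theorem conn {F : Finset (Finset ℕ)} {r : ℕ} (hF : MBases F r) {V S : Finset ℕ}
    (hV : ∀ B ∈ F, B ⊆ V)
    (hS : S.card + 2 ≤ r) {x z : ℕ} (hx : x ∈ V \ S) (hz : z ∈ V \ S) (hxz : x ≠ z)
    (hxl : (upS F (insert x S)).Nonempty) (hzl : (upS F (insert z S)).Nonempty) :
    (upS F (insert z (insert x S))).Nonempty ∨
      ∃ t ∈ V \ S, t ≠ z ∧ t ≠ x ∧ (upS F (insert z (insert t S))).Nonempty ∧
        (upS F (insert t (insert x S))).Nonempty := by
  by_cases hadj : (upS F (insert z (insert x S))).Nonempty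
  · left; exact hadj
  right
  rw [upS_nonempty] at hxl hzl
  obtain ⟨B, hB, hBs⟩ := hxl
  obtain ⟨B', hB', hBs'⟩ := hzl
  have hxS := (Finset.mem_sdiff.mp hx).2
  have hzB : z ∉ B := by
    intro h
    apply hadj
    rw [upS_nonempty]
    exact ⟨B, hB, Finset.insert_subset h hBs⟩
  obtain ⟨u, hu, huF⟩ := pull' hF hB (T := S) ((Finset.subset_insert _ _).trans hBs) hB'
    (hBs' (Finset.mem_insert_self _ _)) ((Finset.subset_insert _ _).trans hBs') hzB
  have hu' := Finset.mem_sdiff.mp hu
  have hux : u = x := by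
    by_contra hne
    apply hadj
    rw [upS_nonempty]
    refine ⟨_, huF, ?_⟩
    apply Finset.insert_subset_insert
    intro a ha
    refine Finset.mem_erase.mpr ⟨?_, hBs ha⟩
    rintro rfl
    rcases Finset.mem_insert.mp ha with h | h
    · exact hne h
    · exact hu'.2 h
  -- a third element
  have h3 : (B \ insert x S).Nonempty := by
    rw [← Finset.card_pos]
    have h4 := Finset.card_sdiff_add_card_eq_card hBs
    rw [Finset.card_insert_of_notMem hxS, hF.card B hB] at h4
    omega
  obtain ⟨t, ht⟩ := h3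
  have ht' := Finset.mem_sdiff.mp ht
  have htx : t ≠ x := fun h => ht'.2 (by rw [h]; exact Finset.mem_insert_self _ _)
  have htS : t ∉ S := fun h => ht'.2 (Finset.mem_insert_of_mem h)
  have htz : t ≠ z := fun h => hzB (by rw [← h]; exact ht'.1)
  refine ⟨t, Finset.mem_sdiff.mpr ⟨hV B hB ht'.1, htS⟩, htz, htx, ?_, ?_⟩
  · rw [upS_nonempty]
    refine ⟨_, huF, ?_⟩
    apply Finset.insert_subset_insert
    rw [hux]
    intro a ha
    refine Finset.mem_erase.mpr ⟨?_, ?_⟩
    · rintro rfl
      rcases Finset.mem_insert.mp ha with h | h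
      · exact htx h.symm
      · exact hxS h
    · rcases Finset.mem_insert.mp ha with h | h
      · rw [h]; exact ht'.1
      · exact hBs (Finset.mem_insert_of_mem h)
  · rw [upS_nonempty]
    exact ⟨B, hB, Finset.insert_subset ht'.1 hBs⟩

/-- the quadratic form of an equivalence relation is nonnegative -/
theorem equiv_sum_nonneg (N : Finset ℕ) (c : ℕ → Finset ℕ) (u : ℕ → ℝ) :
    0 ≤ ∑ x ∈ N, ∑ y ∈ N, if c x = c y then u x * u y else 0 := by
  classical
  have h1 : ∑ x ∈ N, ∑ y ∈ N, (if c x = c y then u x * u y else 0) =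
      ∑ k ∈ N.image c, (∑ x ∈ N.filter (fun x => c x = k), u x) ^ 2 := by
    have h2 : ∀ x ∈ N, c x ∈ N.image c := fun x hx => Finset.mem_image_of_mem c hx
    rw [← Finset.sum_fiberwise_of_maps_to h2]
    apply Finset.sum_congr rfl
    intro k _
    rw [pow_two, Finset.sum_mul_sum]
    apply Finset.sum_congr rfl
    intro x hx
    rw [Finset.mem_filter] at hx
    rw [Finset.sum_filter]
    apply Finset.sum_congr rfl
    intro y _
    rw [hx.2]
    by_cases h : c y = k
    · rw [if_pos h.symm, if_pos h]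
    · rw [if_neg (fun h' => h h'.symm), if_neg h]
  rw [h1]
  exact Finset.sum_nonneg fun k _ => sq_nonneg _

/-- the quadratic inequality for contractions of rank two -/
theorem QQ_base {F : Finset (Finset ℕ)} {r : ℕ} (hF : MBases F r) {V S : Finset ℕ}
    (hS : S.card + 2 = r) : QQ F V S := by
  classical
  -- nonloops
  set N : Finset ℕ := (V \ S).filter (fun x => (upS F (insert x S)).Nonempty) with hN
  have hmemN : ∀ x, x ∈ N ↔ (x ∈ V \ S ∧ (upS F (insert x S)).Nonempty) := by
    intro x; rw [hN, Finset.mem_filter]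
  -- nonadjacent
  set c : ℕ → Finset ℕ := fun x => N.filter (fun y =>
    ¬ (x ≠ y ∧ (upS F (insert x (insert y S))).Nonempty)) with hc
  have hcc : ∀ x ∈ N, ∀ y ∈ N, (c x = c y ↔
      ¬ (x ≠ y ∧ (upS F (insert x (insert y S))).Nonempty)) := by
    intro x hx y hy
    have hx' := (hmemN x).mp hx
    have hy' := (hmemN y).mp hy
    have hxS := (Finset.mem_sdiff.mp hx'.1).2
    have hyS := (Finset.mem_sdiff.mp hy'.1).2
    constructor
    · intro h
      have h1 : y ∈ c y := by
        rw [hc]
        simp only [Finset.mem_filter]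
        exact ⟨hy, fun h => h.1 rfl⟩
      rw [← h, hc] at h1
      simp only [Finset.mem_filter] at h1
      exact h1.2
    · intro h
      ext z
      rw [hc]
      simp only [Finset.mem_filter]
      constructor
      · rintro ⟨h1, h2⟩
        have hz' := (hmemN z).mp h1
        have hzS := (Finset.mem_sdiff.mp hz'.1).2
        refine ⟨h1, ?_⟩
        rintro ⟨h3, h4⟩
        rcases adj_trans hF hS hyS hxS hzS h3 (upS_nonempty.mp hx'.2) (upS_nonempty.mp h4) with
          ⟨h5, h6⟩ | ⟨h5, h6⟩
        · exact h ⟨h5.symm, by rw [Finset.insert_comm]; exact upS_nonempty.mpr h6⟩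
        · exact h2 ⟨h5.symm, by rw [Finset.insert_comm]; exact upS_nonempty.mpr h6⟩
      · rintro ⟨h1, h2⟩
        have hz' := (hmemN z).mp h1
        have hzS := (Finset.mem_sdiff.mp hz'.1).2
        refine ⟨h1, ?_⟩
        rintro ⟨h3, h4⟩
        rcases adj_trans hF hS hxS hyS hzS h3 (upS_nonempty.mp hy'.2) (upS_nonempty.mp h4) with
          ⟨h5, h6⟩ | ⟨h5, h6⟩
        · exact h ⟨h5, upS_nonempty.mpr h6⟩
        · exact h2 ⟨h5.symm, by rw [Finset.insert_comm]; exact upS_nonempty.mpr h6⟩
  -- weights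
  have hW1 : ∀ x ∈ V \ S, ∀ y ∈ V \ S, Wt F S x y =
      if x ∈ N ∧ y ∈ N ∧ c x ≠ c y then 1 else 0 := by
    intro x hx y hy
    have hxS := (Finset.mem_sdiff.mp hx).2
    have hyS := (Finset.mem_sdiff.mp hy).2
    unfold Wt
    by_cases hxy : x = y
    · subst hxy
      simp
    · rw [if_neg hxy]
      by_cases hne : (upS F (insert x (insert y S))).Nonempty
      · have hxN : x ∈ N := by
          rw [hmemN]
          refine ⟨hx, ?_⟩
          obtain ⟨B, hB, hBs⟩ := upS_nonempty.mp hne
          refine upS_nonempty.mpr ⟨B, hB, ?_⟩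
          exact (Finset.insert_subset_insert _ (Finset.subset_insert _ _)).trans hBs
        have hyN : y ∈ N := by
          rw [hmemN]
          refine ⟨hy, ?_⟩
          obtain ⟨B, hB, hBs⟩ := upS_nonempty.mp hne
          exact upS_nonempty.mpr ⟨B, hB, (Finset.subset_insert _ _).trans hBs⟩
        have hcne : c x ≠ c y := by
          intro h
          exact (hcc x hxN y hyN).mp h ⟨hxy, hne⟩
        rw [if_pos ⟨hxN, hyN, hcne⟩]
        have hcard : (insert x (insert y S)).card = r := by
          rw [Finset.card_insert_of_notMem (by simp [hxy, hxS]),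
            Finset.card_insert_of_notMem hyS]
          omega
        have huniq : upS F (insert x (insert y S)) = {insert x (insert y S)} := by
          obtain ⟨B, hB, hBs⟩ := upS_nonempty.mp hne
          ext A
          rw [mem_upS, Finset.mem_singleton]
          constructor
          · rintro ⟨h1, h2⟩
            symm
            apply Finset.eq_of_subset_of_card_le h2
            rw [hF.card A h1, hcard]
          · intro h
            have h3 : insert x (insert y S) = B := by
              apply Finset.eq_of_subset_of_card_le hBs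
              rw [hF.card B hB, hcard]
            rw [h]
            refine ⟨by rw [h3]; exact hB, Finset.Subset.refl _⟩
        rw [huniq]
        simp
      · rw [if_neg]
        · rw [Finset.not_nonempty_iff_eq_empty] at hne
          rw [hne]
          simp
        · rintro ⟨h1, h2, h3⟩
          apply h3
          rw [hcc x h1 y h2]
          rintro ⟨_, h4⟩
          exact hne h4
  intro u
  apply revCS (V \ S) (Wt F S) (fun x y => Wt_nonneg _ _ _ _) (fun x y => Wt_symm _ _ _ _)
    (fun x => if x ∈ N then 1 else 0)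
  intro v
  have h1 : ∑ x ∈ V \ S, ∑ y ∈ V \ S, Wt F S x y * (v x * v y) =
      ∑ x ∈ V \ S, ∑ y ∈ V \ S, (if x ∈ N ∧ y ∈ N then v x * v y else 0) -
      ∑ x ∈ V \ S, ∑ y ∈ V \ S, (if x ∈ N ∧ y ∈ N ∧ c x = c y then v x * v y else 0) := by
    simp only [← Finset.sum_sub_distrib]
    apply Finset.sum_congr rfl
    intro x hx
    apply Finset.sum_congr rfl
    intro y hy
    rw [hW1 x hx y hy]
    by_cases h1 : x ∈ N <;> by_cases h2 : y ∈ N <;> by_cases h3 : c x = c y <;>
      simp [h1, h2, h3]
  have hNsub : N ⊆ V \ S := Finset.filter_subset _ _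
  have h2 : ∑ x ∈ V \ S, ∑ y ∈ V \ S, (if x ∈ N ∧ y ∈ N then v x * v y else 0) =
      (∑ x ∈ V \ S, (if x ∈ N then 1 else 0) * v x) ^ 2 := by
    rw [pow_two, Finset.sum_mul_sum]
    apply Finset.sum_congr rfl
    intro x hx
    apply Finset.sum_congr rfl
    intro y hy
    by_cases h1 : x ∈ N <;> by_cases h2 : y ∈ N <;> simp [h1, h2]
  have h3 : ∑ x ∈ V \ S, ∑ y ∈ V \ S, (if x ∈ N ∧ y ∈ N ∧ c x = c y then v x * v y else 0) =
      ∑ x ∈ N, ∑ y ∈ N, if c x = c y then v x * v y else 0 := by
    symm
    apply Finset.sum_subset_zero_on_sdiff hNsub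
    · intro x hx
      apply Finset.sum_eq_zero
      intro y _
      rw [if_neg]
      rintro ⟨h, _⟩
      exact (Finset.mem_sdiff.mp hx).2 h
    · intro x hx
      apply Finset.sum_subset_zero_on_sdiff hNsub
      · intro y hy
        rw [if_neg]
        rintro ⟨_, h, _⟩
        exact (Finset.mem_sdiff.mp hy).2 h
      · intro y hy
        simp only [hx, hy, true_and]
  rw [h1, h2, h3]
  have := equiv_sum_nonneg N c v
  linarith

/-- the quadratic inequality at every contraction of rank at least two -/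
theorem QQ_all {F : Finset (Finset ℕ)} {r : ℕ} (hF : MBases F r) {V : Finset ℕ}
    (hV : ∀ B ∈ F, B ⊆ V) :
    ∀ (k : ℕ) (S : Finset ℕ), S.card + (k + 2) = r → QQ F V S := by
  intro k
  induction k with
  | zero =>
    intro S hS
    exact QQ_base hF hS
  | succ k ih =>
    intro S hS
    refine QQ_stepC F V r k (fun A hA => ⟨hV A hA, hF.card A hA⟩) S (by omega) ?_ ?_
    · intro x hx z hz hxz h1 h2
      exact conn hF hV (by omega) hx hz hxz h1 h2
    · intro z hz
      apply ih
      rw [Finset.card_insert_of_notMem (Finset.mem_sdiff.mp hz).2]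
      omega

end Pool.Agent.Helper98.ST
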